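import Pool.Agent.Run7.h342.MD.Stm

/-!
Piece MAIN of project MD (helper711).
-/

set_option autoImplicit false
set_option linter.all false

namespace Run7.h711.MD

open MvPolynomial
open Run7.h342.MD

noncomputable section

section lin

variable {n d : ℕ} {k : Type} [Field k]

theorem lie_add_left (Y Y' : Matrix (Fin n) (Fin n) k) (c : Ix n d → k) :
    lie (Y + Y') c = lie Y c + lie Y' c := by
  funext q
  show coeff (R := k) (σ := Fin n) _ _ = coeff (R := k) (σ := Fin n) _ _ +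
    coeff (R := k) (σ := Fin n) _ _
  rw [← coeff_add]
  refine congrArg (coeff _) ?_
  simp only [Matrix.add_apply, map_add, add_mul, Finset.sum_add_distrib]
  ring

theorem lie_smul_left (a : k) (Y : Matrix (Fin n) (Fin n) k) (c : Ix n d → k) :
    lie (a • Y) c = a • lie Y c := by
  funext q
  show coeff _ _ = a * coeff _ _
  rw [← coeff_C_mul]
  refine congrArg (coeff _) ?_
  rw [mul_sub, Finset.mul_sum, Finset.mul_sum]
  refine congrArg₂ (· - ·) ?_ ?_
  · refine Finset.sum_congr rfl fun j _ => ?_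
    rw [Matrix.smul_apply, smul_eq_mul, map_mul, mul_assoc]
  · refine Finset.sum_congr rfl fun l _ => ?_
    rw [← mul_assoc, Finset.mul_sum]
    congr 1
    refine Finset.sum_congr rfl fun m _ => ?_
    rw [Matrix.smul_apply, smul_eq_mul, map_mul, mul_assoc]

theorem lie_add_right (Y : Matrix (Fin n) (Fin n) k) (c c' : Ix n d → k) :
    lie Y (c + c') = lie Y c + lie Y c' := by
  funext q
  show coeff (R := k) (σ := Fin n) _ _ = coeff (R := k) (σ := Fin n) _ _ +
    coeff (R := k) (σ := Fin n) _ _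
  rw [← coeff_add]
  refine congrArg (coeff _) ?_
  simp only [pol_add, map_add, mul_add, Finset.sum_add_distrib]
  ring

theorem lie_smul_right (a : k) (Y : Matrix (Fin n) (Fin n) k) (c : Ix n d → k) :
    lie Y (a • c) = a • lie Y c := by
  funext q
  show coeff _ _ = a * coeff _ _
  rw [← coeff_C_mul]
  refine congrArg (coeff _) ?_
  rw [mul_sub, Finset.mul_sum, Finset.mul_sum]
  refine congrArg₂ (· - ·) ?_ ?_
  · refine Finset.sum_congr rfl fun j _ => ?_
    rw [pol_smul]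
    ring
  · refine Finset.sum_congr rfl fun l _ => ?_
    rw [pol_smul, pderiv_C_mul]
    ring

/-- `Y ↦ lie Y c` -/
def lieL (c : Ix n d → k) : Matrix (Fin n) (Fin n) k →ₗ[k] (Ix n d → k) where
  toFun Y := lie Y c
  map_add' Y Y' := lie_add_left Y Y' c
  map_smul' a Y := lie_smul_left a Y c

/-- `c ↦ lie Y c` -/
def lieR (Y : Matrix (Fin n) (Fin n) k) : (Ix n d → k) →ₗ[k] (Ix n d → k) where
  toFun c := lie Y c
  map_add' c c' := lie_add_right Y c c'
  map_smul' a c := lie_smul_right a Y c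

/-- the coordinates of `lie Y c` as polynomials in `c` -/
def Lp (Y : Matrix (Fin n) (Fin n) k) (q : Ix n d) : MvPolynomial (Ix n d) k :=
  ∑ p : Ix n d, C (lie Y (fun j : Ix n d => if p = j then (1 : k) else 0) q) * X p

theorem eval_Lp (Y : Matrix (Fin n) (Fin n) k) (q : Ix n d) (c : Ix n d → k) :
    eval c (Lp Y q) = lie Y c q := by
  have h1 : lie Y c = ∑ p : Ix n d, c p • lie Y (fun j : Ix n d => if p = j then (1 : k) else 0) :=
    (lieR (n := n) (d := d) Y).pi_apply_eq_sum_univ c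
  rw [h1]
  unfold Lp
  rw [map_sum, Finset.sum_apply]
  refine Finset.sum_congr rfl fun p _ => ?_
  rw [map_mul, eval_C, eval_X, Pi.smul_apply, smul_eq_mul, mul_comm]

theorem lie_sum (z : Fin n × Fin n → k) (c : Ix n d → k) :
    ∑ p : Fin n × Fin n, z p • lie (Matrix.single p.1 p.2 1) c =
      lie (Matrix.of fun a b => z (a, b)) c := by
  have h1 : (Matrix.of fun a b => z (a, b)) =
      ∑ p : Fin n × Fin n, z p • (Matrix.single p.1 p.2 1 : Matrix (Fin n) (Fin n) k) := by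
    ext a b
    rw [Matrix.sum_apply, Finset.sum_eq_single (a, b)]
    · simp
    · intro p _ hp
      rw [Matrix.smul_apply, Matrix.single_apply, if_neg, smul_zero]
      rintro ⟨h1, h2⟩
      exact hp (Prod.ext h1 h2)
    · intro h
      exact absurd (Finset.mem_univ _) h
  rw [h1]
  have h2 := map_sum (lieL c) (fun p : Fin n × Fin n =>
    z p • (Matrix.single p.1 p.2 1 : Matrix (Fin n) (Fin n) k)) Finset.univ
  refine Eq.trans ?_ h2.symm
  refine Finset.sum_congr rfl fun p _ => ?_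
  rw [map_smul]
  rfl

/-- the rows -/
def row {r : ℕ} (v : Fin r → Ix n d → k) (h : Ix n d → k) : (Fin n × Fin n) ⊕ Fin r → Ix n d → k
  | Sum.inl p => lie (Matrix.single p.1 p.2 1) h
  | Sum.inr l => v l

/-- the rows as polynomials -/
def rowp {r : ℕ} (v : Fin r → Ix n d → k) : (Fin n × Fin n) ⊕ Fin r → Ix n d →
    MvPolynomial (Ix n d) k
  | Sum.inl p => Lp (Matrix.single p.1 p.2 1)
  | Sum.inr l => fun q => C (v l q)

theorem eval_rowp {r : ℕ} (v : Fin r → Ix n d → k) (h : Ix n d → k) (j) (q : Ix n d) :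
    eval h (rowp v j q) = row v h j q := by
  rcases j with p | l
  · exact eval_Lp _ _ _
  · exact eval_C _

variable {r : ℕ} (e : (Fin n × Fin n) ⊕ Fin r ≃ Ix n d) (v : Fin r → Ix n d → k)

/-- the determinant of the rows -/
def S2 : MvPolynomial (Ix n d) k := (Matrix.of fun p q => rowp v (e.symm p) q).det

theorem eval_S2 (h : Ix n d → k) :
    eval h (S2 e v) = (Matrix.of fun p q => row v h (e.symm p) q).det := by
  unfold S2
  rw [RingHom.map_det]
  congr 1
  ext p q
  exact eval_rowp v h _ _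

theorem sum_rows (h : Ix n d → k) (g : Ix n d → k) :
    ∑ p, g p • (Matrix.of fun p q => row v h (e.symm p) q).row p =
      lie (Matrix.of fun a b => g (e (Sum.inl (a, b)))) h + ∑ l, g (e (Sum.inr l)) • v l := by
  have h1 : ∑ p, g p • (Matrix.of fun p q => row v h (e.symm p) q).row p =
      ∑ j, g (e j) • row v h j := by
    rw [← Equiv.sum_comp e]
    refine Finset.sum_congr rfl fun j _ => ?_
    congr 1
    funext q
    show row v h (e.symm (e j)) q = row v h j q
    rw [Equiv.symm_apply_apply]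
  rw [h1, Fintype.sum_sum_type]
  congr 1
  exact lie_sum (fun p => g (e (Sum.inl p))) h

theorem S2_ne_iff (h : Ix n d → k) : eval h (S2 e v) ≠ 0 ↔
    ∀ g : Ix n d → k, lie (Matrix.of fun a b => g (e (Sum.inl (a, b)))) h +
      ∑ l, g (e (Sum.inr l)) • v l = 0 → ∀ p, g p = 0 := by
  rw [eval_S2, ← isUnit_iff_ne_zero, ← Matrix.isUnit_iff_isUnit_det,
    ← Matrix.linearIndependent_rows_iff_isUnit, Fintype.linearIndependent_iff]
  refine forall_congr' fun g => ?_
  rw [sum_rows]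

theorem S2_imp (h : Ix n d → k) (hS : eval h (S2 e v) ≠ 0) (Y : Matrix (Fin n) (Fin n) k)
    (β : Fin r → k) (h0 : lie Y h + ∑ l, β l • v l = 0) : β = 0 := by
  rw [S2_ne_iff] at hS
  have h1 := hS (fun p => Sum.elim (fun q : Fin n × Fin n => Y q.1 q.2) β (e.symm p)) (by
    simp only [Equiv.symm_apply_apply, Sum.elim_inl, Sum.elim_inr]
    exact h0)
  funext l
  have h2 := h1 (e (Sum.inr l))
  simpa using h2

end lin

theorem exists_factor {σ : Type} [Finite σ] [Nonempty σ] {k : Type} [Field k]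
    (F : σ → k) (P : MvPolynomial σ k) (hP : eval F P = 0) :
    ∃ D : MvPolynomial σ k, Irreducible D ∧ eval F D = 0 ∧ D ∣ P := by
  classical
  obtain ⟨q₀⟩ := ‹Nonempty σ›
  obtain ⟨P', hP', h0, hdv⟩ : ∃ P' : MvPolynomial σ k, P' ≠ 0 ∧ eval F P' = 0 ∧
      ∀ D, D ∣ P' → D ∣ P := by
    by_cases h : P = 0
    · refine ⟨X q₀ - C (F q₀), ?_, ?_, fun D _ => by rw [h]; exact dvd_zero D⟩
      · intro hcon
        have h1 := congrArg (eval (fun _ => F q₀ + 1)) hcon
        rw [map_sub, eval_X, eval_C, map_zero] at h1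
        simp at h1
      · rw [map_sub, eval_X, eval_C, sub_self]
    · exact ⟨P, h, hP, fun D hD => hD⟩
  obtain ⟨f, hf, u, hu⟩ := UniqueFactorizationMonoid.exists_prime_factors P' hP'
  have h1 : eval F f.prod = 0 := by
    have h2 : eval F (f.prod * (u : MvPolynomial σ k)) = 0 := by rw [hu]; exact h0
    rw [map_mul] at h2
    have h3 : eval F (u : MvPolynomial σ k) ≠ 0 := (u.isUnit.map (eval F)).ne_zero
    exact (mul_eq_zero.1 h2).resolve_right h3
  rw [map_multiset_prod, Multiset.prod_eq_zero_iff, Multiset.mem_map] at h1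
  obtain ⟨D, hD, hD0⟩ := h1
  refine ⟨D, (hf D hD).irreducible, hD0, hdv D ?_⟩
  rw [← hu]
  exact (Multiset.dvd_prod hD).mul_right _

section main

variable (n d : ℕ) (k : Type) [Field k] [IsAlgClosed k] [CharZero k]

variable {n d k}

theorem zero_deg (hn : 3 ≤ n) : ¬ Nondeg (0 : Ix n d → k) := by
  intro h
  have h1 := h (fun _ => 1) (by
    funext i
    unfold ev
    simp)
  have h2 := congrFun h1 ⟨0, by omega⟩
  simp at h2

/-- the element may be rescaled so that it fixes the vector -/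
theorem rescale (hn : 3 ≤ n) (hd : 2 ≤ d) (F : U n d k) (g : GL (Fin n) k) (hg : ¬ IsScalar g) (a : k)
    (ha : act g F.1 = a • F.1) : ∃ g' : GL (Fin n) k, ¬ IsScalar g' ∧ act g' F.1 = F.1 := by
  have ha0 : a ≠ 0 := by
    rintro rfl
    rw [zero_smul] at ha
    have := nondeg_act g F.1 F.2
    rw [ha] at this
    exact zero_deg hn this
  obtain ⟨b, hb⟩ := IsAlgClosed.exists_pow_nat_eq a (show 0 < d - 1 by omega)
  have hb0 : b ≠ 0 := by
    rintro rfl
    rw [zero_pow (by omega)] at hb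
    exact ha0 hb.symm
  have h1 : (g : Matrix (Fin n) (Fin n) k) * ((g⁻¹ : GL (Fin n) k) : Matrix (Fin n) (Fin n) k) = 1 :=
    g.mul_inv
  have h2 : ((g⁻¹ : GL (Fin n) k) : Matrix (Fin n) (Fin n) k) * (g : Matrix (Fin n) (Fin n) k) = 1 :=
    g.inv_mul
  refine ⟨⟨b • (g : Matrix (Fin n) (Fin n) k), b⁻¹ • ((g⁻¹ : GL (Fin n) k) : Matrix (Fin n) (Fin n) k),
    ?_, ?_⟩, ?_, ?_⟩
  · rw [smul_mul_smul_comm, h1, mul_inv_cancel₀ hb0, one_smul]
  · rw [smul_mul_smul_comm, h2, inv_mul_cancel₀ hb0, one_smul]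
  · rintro ⟨c, hc⟩
    refine hg ⟨b⁻¹ * c, ?_⟩
    have hc' : b • (g : Matrix (Fin n) (Fin n) k) = c • (1 : Matrix (Fin n) (Fin n) k) := hc
    rw [mul_smul, ← hc', smul_smul, inv_mul_cancel₀ hb0, one_smul]
  · refine act_eq_of _ _ _ fun x => ?_
    show ev F.1 ((b • (g : Matrix (Fin n) (Fin n) k)).mulVec x) =
      (b • (g : Matrix (Fin n) (Fin n) k)).mulVec (ev F.1 x)
    rw [Matrix.smul_mulVec, Matrix.smul_mulVec, ev_scale, ← ev_act_mulVec, ha, ev_smul, smul_smul]
    congr 1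
    rw [← hb, ← pow_succ']
    congr 1
    omega

/-- the derivative as a linear map -/
def dL (hDU : S_DU n d k) (φ : U n d k → k) (hφ : RegU φ) (c : U n d k) : (Ix n d → k) →ₗ[k] k where
  toFun v := dU φ c v
  map_add' v v' := hDU.add_v φ hφ c v v'
  map_smul' a v := hDU.smul_v φ hφ c a v

theorem dU_sum (hDU : S_DU n d k) (φ : U n d k → k) (hφ : RegU φ) (c : U n d k) {r : ℕ}
    (β : Fin r → k) (v : Fin r → Ix n d → k) :
    dU φ c (∑ l, β l • v l) = ∑ l, β l * dU φ c (v l) := by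
  have h1 := map_sum (dL hDU φ hφ c) (fun l => β l • v l) Finset.univ
  refine h1.trans (Finset.sum_congr rfl fun l _ => ?_)
  rw [map_smul]
  rfl

end main

theorem t_MAIN (n d : ℕ) (k : Type) [Field k] [IsAlgClosed k] [CharZero k] (hn : 3 ≤ n) (hd : 2 ≤ d) :
    S_RES n d k → S_REPU n d k → S_DU n d k → S_ORB n d k → S_INF n d k →
      S_DIAG n d k → S_COD n d k → S_F3 n d k → S_F1 n d k → S_KD n d k → S_SPAN n d k →
      S_MAIN n d k := by
  classical
  intro hRES _ hDU hORB hINF hDIAG hCOD hF3 hF1 hKD hSPAN F hg₀ hreg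
  obtain ⟨Θ, hΘ⟩ := hRES
  obtain ⟨g₀, hg₀, a₀, ha₀⟩ := hg₀
  obtain ⟨g, hg, hgF⟩ := rescale hn hd F g₀ hg₀ a₀ ha₀
  have hgF' : gact g F = F := Subtype.ext hgF
  obtain ⟨r, hr, t, ht⟩ := hKD F hreg
  obtain ⟨S, hSF, hS⟩ := hSPAN F r t ht
  have htr : ∀ i, RegU (t i) := fun i => (ht.mem i).1
  -- the complement
  obtain ⟨L, hL⟩ : ∃ L : Submodule k (Ix n d → k), L = LinearMap.range (lieL F.1) := ⟨_, rfl⟩
  obtain ⟨Cc, hC⟩ := Submodule.exists_isCompl L
  have hinj : Function.Injective (lieL F.1) := by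
    rw [injective_iff_map_eq_zero]
    intro Y hY
    exact hINF F.1 F.2 Y hY
  have hfL : Module.finrank k L = n * n := by
    rw [hL, LinearMap.finrank_range_of_inj hinj, Module.finrank_matrix]
    simp
  have hfC : Module.finrank k Cc = r := by
    have h1 := Submodule.finrank_add_eq_of_isCompl hC
    rw [hfL, Module.finrank_fintype_fun_eq_card, ← hr] at h1
    omega
  obtain ⟨b⟩ : Nonempty (Module.Basis (Fin r) k Cc) := ⟨Module.finBasisOfFinrankEq k Cc hfC⟩
  obtain ⟨v, hv⟩ : ∃ v : Fin r → Ix n d → k, v = fun l => (b l : Ix n d → k) := ⟨_, rfl⟩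
  have hvs : ∀ β : Fin r → k, ∑ l, β l • v l = ((∑ l, β l • b l : Cc) : Ix n d → k) := by
    intro β
    rw [hv]
    simp
  have hdec : ∀ u : Ix n d → k, ∃ (Y : Matrix (Fin n) (Fin n) k) (β : Fin r → k),
      u = lie Y F.1 + ∑ l, β l • v l := by
    intro u
    have h1 : u ∈ L ⊔ Cc := by rw [hC.sup_eq_top]; trivial
    obtain ⟨y, hy, z, hz, hyz⟩ := Submodule.mem_sup.1 h1
    rw [hL] at hy
    obtain ⟨Y, hY⟩ := hy
    refine ⟨Y, fun l => b.repr ⟨z, hz⟩ l, ?_⟩
    rw [hvs, b.sum_repr, ← hyz, ← hY]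
    rfl
  have hind : ∀ (Y : Matrix (Fin n) (Fin n) k) (β : Fin r → k), lie Y F.1 + ∑ l, β l • v l = 0 →
      Y = 0 ∧ β = 0 := by
    intro Y β h
    have h1 : lie Y F.1 ∈ L := by rw [hL]; exact ⟨Y, rfl⟩
    have h2 : lie Y F.1 ∈ Cc := by
      have h3 : lie Y F.1 = ((-(∑ l, β l • b l : Cc) : Cc) : Ix n d → k) := by
        rw [eq_neg_of_add_eq_zero_left h, hvs]
        rfl
      rw [h3]
      exact Subtype.mem _
    have h3 : lie Y F.1 = 0 := by
      have := hC.disjoint.le_bot (Submodule.mem_inf.2 ⟨h1, h2⟩)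
      simpa using this
    refine ⟨hINF F.1 F.2 Y h3, ?_⟩
    rw [h3, zero_add, hvs] at h
    have h4 : (∑ l, β l • b l : Cc) = 0 := Subtype.ext h
    funext l
    exact Fintype.linearIndependent_iff.1 b.linearIndependent β h4 l
  -- the polynomial `S2`
  have hcard : Fintype.card ((Fin n × Fin n) ⊕ Fin r) = Fintype.card (Ix n d) := by
    rw [← hr, Fintype.card_sum, Fintype.card_prod, Fintype.card_fin, Fintype.card_fin, add_comm]
  obtain ⟨e⟩ : Nonempty ((Fin n × Fin n) ⊕ Fin r ≃ Ix n d) := ⟨Fintype.equivOfCardEq hcard⟩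
  have hS2F : eval F.1 (S2 e v) ≠ 0 := by
    rw [S2_ne_iff]
    intro g' h
    obtain ⟨h1, h2⟩ := hind _ (fun l => g' (e (Sum.inr l))) h
    intro p
    obtain ⟨j, rfl⟩ := e.surjective p
    rcases j with ⟨x, y⟩ | l
    · exact congrFun (congrFun h1 x) y
    · exact congrFun h2 l
  -- the determinant `δ`
  obtain ⟨M, hM⟩ : ∃ M : Matrix (Fin r) (Fin r) (OU n d k), M = Matrix.of fun i l =>
      (⟨fun h => dU (t i) h (v l), hDU.reg (t i) (htr i) (v l)⟩ : OU n d k) := ⟨_, rfl⟩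
  obtain ⟨δ, hδ⟩ : ∃ δ : U n d k → k, δ = (M.det : OU n d k).1 := ⟨_, rfl⟩
  have hδr : RegU δ := by rw [hδ]; exact (M.det).2
  have hδe : ∀ h, δ h = (Matrix.of fun i l => dU (t i) h (v l)).det := by
    intro h
    have h1 := RingHom.map_det ((Pi.evalRingHom (fun _ : U n d k => k) h).comp
      (OU n d k).toSubring.subtype) M
    rw [hδ]
    refine Eq.trans h1 ?_
    congr 1
    ext i l
    rw [hM]
    rfl
  obtain ⟨P, Q, hPQ⟩ := hδr
  -- linear algebra
  have hker : ∀ h : U n d k, δ h = 0 → ∃ β : Fin r → k, β ≠ 0 ∧ ∀ i, dU (t i) h (∑ l, β l • v l) = 0 := by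
    intro h h0
    rw [hδe, ← Matrix.exists_mulVec_eq_zero_iff] at h0
    obtain ⟨β, hβ, h1⟩ := h0
    refine ⟨β, hβ, fun i => ?_⟩
    rw [dU_sum hDU _ (htr i)]
    have h2 := congrFun h1 i
    rw [Pi.zero_apply] at h2
    rw [← h2]
    simp only [Matrix.mulVec, dotProduct, Matrix.of_apply]
    exact Finset.sum_congr rfl fun l _ => mul_comm _ _
  -- (1)
  have hA : ∀ h : U n d k, eval h.1 S ≠ 0 → eval h.1 (S2 e v) ≠ 0 → TrivStab h.1 → δ h ≠ 0 := by
    intro h h1 h2 h3 h0
    obtain ⟨β, hβ, hβ'⟩ := hker h h0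
    have h4 : ∃ Y : Matrix (Fin n) (Fin n) k, ∑ l, β l • v l = lie Y h.1 := by
      by_contra hcon
      push Not at hcon
      obtain ⟨φ, hφ, hφ'⟩ := hF1 h h3 _ hcon
      obtain ⟨a, ha⟩ := hS h h1 φ hφ
      apply hφ'
      rw [ha]
      exact Finset.sum_eq_zero fun i _ => by rw [hβ' i, mul_zero]
    obtain ⟨Y, hY⟩ := h4
    refine hβ (S2_imp e v h.1 h2 (-Y) β ?_)
    have h5 : lie (-Y) h.1 = -lie Y h.1 := map_neg (lieL h.1) Y
    rw [h5, hY, neg_add_cancel]
  -- (2)
  have hne : Nonempty (Ix n d) := ⟨(⟨0, by omega⟩, Sym.replicate d ⟨0, by omega⟩)⟩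
  have hB : δ F ≠ 0 := by
    intro h0
    have h1 : eval F.1 P = 0 := by
      have h2 := (hPQ F).2
      rw [h0] at h2
      exact (div_eq_zero_iff.1 h2.symm).resolve_right (hPQ F).1
    obtain ⟨D, hD, hDF, hDP⟩ := exists_factor F.1 P h1
    have hDS : ¬ D ∣ S * S2 e v * Θ := by
      rintro ⟨R, hR⟩
      have h2 : eval F.1 (S * S2 e v * Θ) = 0 := by rw [hR, map_mul, hDF, zero_mul]
      rw [map_mul, map_mul] at h2
      exact mul_ne_zero (mul_ne_zero hSF hS2F) ((hΘ.iff F.1).2 F.2) h2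
    obtain ⟨c, hc1, hc2, hc3⟩ := hCOD D _ hD hDS
    rw [map_mul, map_mul] at hc2
    have hc4 : Nondeg c := (hΘ.iff c).1 (right_ne_zero_of_mul hc2)
    have hc5 := left_ne_zero_of_mul hc2
    have hst : TrivStab c := by
      intro g' hg'
      by_contra hcon
      exact hc3 g' (hDIAG c hc4 g' hg') hcon hg'
    refine hA ⟨c, hc4⟩ (left_ne_zero_of_mul hc5) (right_ne_zero_of_mul hc5) hst ?_
    rw [(hPQ ⟨c, hc4⟩).2]
    obtain ⟨R, hR⟩ := hDP
    show eval c P / _ = 0
    rw [hR, map_mul, hc1, zero_mul, zero_div]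
  -- (3)
  obtain ⟨w, hw⟩ := hF3 F g hgF hg
  obtain ⟨Y, β, hYβ⟩ := hdec (act g w - w)
  have hβ0 : β = 0 := by
    by_contra hβ
    apply hB
    rw [hδe, ← Matrix.exists_mulVec_eq_zero_iff]
    refine ⟨β, hβ, ?_⟩
    funext i
    have h1 : dU (t i) F (act g w) = dU (t i) F w := by
      have h2 := hDU.act (t i) (htr i) g F w
      rw [hgF'] at h2
      rw [← h2]
      congr 1
      funext x
      exact inv_gact (ht.mem i) g x
    have h3 : dU (t i) F (lie Y F.1) = 0 := by
      have h4 := hORB.der (t i) (htr i) F Y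
      have h5 : orb F (t i) = orb F (fun _ => 0) := by
        funext g'
        show t i (gact g' F) = 0
        rw [inv_gact (ht.mem i)]
        exact ht.zero i
      have h6 : RegU (fun _ : U n d k => (0 : k)) := (OU n d k).zero_mem
      rw [← h4, h5, hORB.der _ h6 F Y]
      exact hDU.const 0 F _
    have h7 : dU (t i) F (∑ l, β l • v l) = 0 := by
      have h8 := (dL hDU (t i) (htr i) F).map_sub (act g w) w
      have h9 := (dL hDU (t i) (htr i) F).map_add (lie Y F.1) (∑ l, β l • v l)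
      have h10 : dU (t i) F (act g w - w) = dU (t i) F (act g w) - dU (t i) F w := h8
      have h11 : dU (t i) F (lie Y F.1 + ∑ l, β l • v l) =
        dU (t i) F (lie Y F.1) + dU (t i) F (∑ l, β l • v l) := h9
      rw [hYβ, h11, h3, h1, sub_self, zero_add] at h10
      exact h10
    rw [dU_sum hDU _ (htr i)] at h7
    rw [Pi.zero_apply, ← h7]
    simp only [Matrix.mulVec, dotProduct, Matrix.of_apply]
    exact Finset.sum_congr rfl fun l _ => mul_comm _ _
  apply hw Y
  rw [hYβ, hβ0]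
  simp

end

end Run7.h711.MD
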